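import Pool.Agent.H8.WP.Targets

/-!
# Row AI: equality of the two sides
-/

set_option autoImplicit false

namespace Pool.Agent.H8.WP

open Pool.Agent.H69.Sp Pool.Agent.H69.Mt Pool.Agent.H16.TO Pool.Agent.H8.PL Pool.Agent.H8.DI

theorem pf_ai (hAL : W_AL) (hSU : W_SU) : W_AI := by
  classical
  intro V Q _ _ U Hh Vv st lt S I D F G rk M hP htr hR
  obtain ⟨hM0, hmm, -⟩ := hSU V Q U Hh Vv st lt S I D F G rk M hP hR
  have hsur := hR.sur
  have hinj := hR.inj
  -- the two sides have the same size
  have card : ∀ b b' : Bool, (∀ x, (st x).s = b → ∃ y, (st y).s = b' ∧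
      (if b then I y x else I x y)) →
      (∀ x x' y, (st x).s = b → (st x').s = b → (st y).s = b' →
        (if b then I y x else I x y) → (if b then I y x' else I x' y) → x = x') → M b ≤ M b' := by
    intro b b' h1 h2
    by_contra hlt
    have hlt : M b' < M b := by omega
    have hx : ∀ i : Fin (M b), ∃ x, (st x).s = b ∧ rk x = i.1 := fun i => hsur b i.1 i.2
    choose f hf using hx
    choose g hg using fun i => h1 (f i) (hf i).1
    obtain ⟨i, j, hij, he⟩ := Fintype.exists_ne_map_eq_of_card_lt
      (fun i : Fin (M b) => (⟨rk (g i), by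
        have := hR.ltM (g i)
        simpa only [(hg i).1] using this⟩ : Fin (M b'))) (by simpa using hlt)
    have h3 : rk (g i) = rk (g j) := by simpa using congrArg Fin.val he
    have h4 : g i = g j := hinj _ _ (by simp only [(hg i).1, (hg j).1]) h3
    have h5 : f i = f j := h2 _ _ (g i) (hf i).1 (hf j).1 (hg i).1 (hg i).2 (h4 ▸ (hg j).2)
    apply hij
    apply Fin.ext
    rw [← (hf i).2, ← (hf j).2, h5]
  have hle1 : M false ≤ M true := by
    refine card false true (fun x hx => ?_) (fun x x' y hx hx' hy h h' => ?_)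
    · obtain ⟨y, hy, -⟩ := hP.ii x hx
      exact ⟨y, hy.1, by simpa using hy.2⟩
    · exact (hP.ii' y hy).unique ⟨hx, by simpa using h⟩ ⟨hx', by simpa using h'⟩
  have hle2 : M true ≤ M false := by
    refine card true false (fun x hx => ?_) (fun x x' y hx hx' hy h h' => ?_)
    · obtain ⟨y, hy, -⟩ := hP.ii' x hx
      exact ⟨y, hy.1, by simpa using hy.2⟩
    · exact (hP.ii y hy).unique ⟨hx, by simpa using h⟩ ⟨hx', by simpa using h'⟩
  have hMM : M true = M false := le_antisymm hle2 hle1
  refine ⟨hMM, ?_⟩
  -- the first element of the side `true` is below the side `false`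
  have hlow : ∀ x y, (st x).s = false → (st y).s = true → rk y = 0 → lt y x := by
    intro x y hx hy h0
    obtain ⟨z, ⟨hz, hI⟩, -⟩ := hP.ii x hx
    have h1 := (hP.il x z hx hz hI).1
    by_cases h2 : rk z = 0
    · have : z = y := hinj z y (by simp only [hz, hy]) (by omega)
      rwa [← this]
    · exact htr _ _ _ ((hR.lti y z (by simp only [hz, hy])).mpr (by omega)) h1
  have hal := hAL V (fun x => (st x).s) lt rk M (fun x y => lt y x) D I (M false - 1) 1 hR
    (by omega) (by omega)
    (fun x hx => by
      obtain ⟨l, hl⟩ := hR.dn x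
      exact ⟨l, fun y hy => hl y (by simp only [hx, hy]; simp)⟩)
    (fun x x' y hx hx' hy hle h => by
      rcases Nat.eq_or_lt_of_le hle with h1 | h1
      · rw [hinj x x' (by simp only [hx, hx']) h1] at h
        exact h
      · exact htr _ _ _ h ((hR.lti x x' (by simp only [hx, hx'])).mpr h1))
    (fun x hx hlt => by
      have hnm : ¬ mx (st x) := by
        rw [(hmm x hx).1]
        omega
      exact ⟨hP.dd x hx hnm, hP.ii x hx⟩)
    (fun x y hx hy hlt h => by
      have h1 := hP.dl x y hx hy h
      have h2 := hR.ltM y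
      simp only [hy] at h2
      refine ⟨h1.1, ?_, by omega⟩
      by_contra h3
      exact h1.1 (hlow x y hx hy (by omega)))
    (fun x y hx hy hlt h => ⟨(hP.il x y hx hy h).1, by omega⟩)
    (fun x x' y hx hx' hy _ _ h h' => by
      have h1 := hP.dl x y hx hy h
      exact (hP.dd' y hy h1.2.2).unique ⟨hx, h⟩ ⟨hx', h'⟩)
    (fun x x' y hx hx' hy _ _ h h' => (hP.ii' y hy).unique ⟨hx, h⟩ ⟨hx', h'⟩)
  have key : ∀ x y, (st x).s = false → (st y).s = true → I x y → rk y = rk x := by
    intro x y hx hy hI
    by_cases hlt : rk x < M false - 1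
    · have := (hal x y hx hy hlt).2 hI
      omega
    · have h1 := hR.ltM x
      simp only [hx] at h1
      have h2 := hR.ltM y
      simp only [hy] at h2
      by_contra hne
      obtain ⟨x', hx', hrk⟩ := hsur false (rk y) (by omega)
      obtain ⟨y', ⟨hy', hI'⟩, -⟩ := hP.ii x' hx'
      have h3 := (hal x' y' hx' hy' (by omega)).2 hI'
      have h4 : y' = y := hinj y' y (by simp only [hy, hy']) (by omega)
      rw [h4] at hI'
      have h5 : x = x' := (hP.ii' y hy).unique ⟨hx, hI⟩ ⟨hx', hI'⟩
      rw [h5] at hne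
      exact hne hrk.symm
  intro x y hx hy
  constructor
  · exact key x y hx hy
  · intro h
    obtain ⟨z, ⟨hz, hI⟩, -⟩ := hP.ii x hx
    have h1 := key x z hx hz hI
    have h2 : z = y := hinj z y (by simp only [hz, hy]) (by omega)
    rwa [h2] at hI

end Pool.Agent.H8.WP
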