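import Pool.Agent.H8.WP.Targets

/-!
# Row DF: the axioms are definable
-/

set_option autoImplicit false

namespace Pool.Agent.H8.WP

open Pool.Agent.H69.Sp Pool.Agent.H69.Mt Pool.Agent.H16.TO Pool.Agent.H8.PL Pool.Agent.H8.DI

/-- the counting conditions -/
inductive Ix' : Type
  | su : Ix'
  | su' : Ix'
  | ii : Ix'
  | ii' : Ix'
  | dd : Ix'
  | dd' : Ix'
  | ff : Ix'
  | ff' : Ix'
  | gg : Ix'
  | gg' : Ix'

instance : Finite Ix' := by
  refine Finite.of_injective (β := Fin 10) (fun i => match i with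
    | .su => 0 | .su' => 1 | .ii => 2 | .ii' => 3 | .dd => 4 | .dd' => 5 | .ff => 6 | .ff' => 7
    | .gg => 8 | .gg' => 9) ?_
  intro a b h
  cases a <;> cases b <;> simp_all

section
variable {Q : Type}

/-- the pair conditions -/
def chiW (U : Bool → Bool → Bool → Bool → Q → Prop) (Hh Vv : Q → Q → Prop) : Pr2 (Ps Q) 6 :=
  fun s t a _ e =>
    (e → ¬ a 0) ∧
    (s.s = t.s → a 0 → t.fc = true → s.fc = true) ∧
    (s.s = t.s → a 0 → s.lc = true → t.lc = true) ∧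
    (s.s = t.s → mx s → ¬ a 0) ∧
    (s.s = t.s → mn t → ¬ a 0) ∧
    (s.s = false → t.s = false → a 1 → a 0 ∧ t.bt = s.tp ∧
      (s.fc = true → s.tp = !t.fc) ∧ (s.tp = false → Vv s.q t.q)) ∧
    (s.s = false → t.s = true → a 4 → a 0 ∧ s.lc = false ∧ t.fc = false ∧ s.bt = t.bt ∧
      s.tp = t.tp ∧ Hh s.q t.q) ∧
    (s.s = false → t.s = true → a 5 → ¬ a 0 ∧ (t.fc = true → t.tp = true)) ∧
    U s.fc s.lc s.bt s.tp s.q

/-- the pair conditions which use both directions -/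
def chiW' : Pr2 (Ps Q) 6 :=
  fun s t a b e =>
    (s.s = t.s → e ∨ a 0 ∨ b 0) ∧
    (s.s = false → t.s = true → a 2 → b 0 ∧ s.fc = t.fc ∧ s.lc = t.lc ∧ s.bt = t.bt ∧
      s.tp = t.tp ∧ s.q = t.q) ∧
    (s.s = false → t.s = true → a 3 → ¬ b 0 ∧ ¬ mx s ∧ ¬ mn t)

/-- all pair conditions -/
def chiT (U : Bool → Bool → Bool → Bool → Q → Prop) (Hh Vv : Q → Q → Prop) : Pr2 (Ps Q) 6 :=
  fun s t a b e => chiW U Hh Vv s t a b e ∧ chiW' s t a b e

/-- the elements with counting conditions -/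
def sgW : Ix' → Ps Q → Prop
  | .su => fun s => s.s = false ∧ ¬ mx s
  | .su' => fun s => s.s = false ∧ ¬ mn s
  | .ii => fun s => s.s = false
  | .ii' => fun s => s.s = true
  | .dd => fun s => s.s = false ∧ ¬ mx s
  | .dd' => fun s => s.s = true ∧ ¬ mn s
  | .ff => fun s => s.s = false ∧ s.lc = false
  | .ff' => fun s => s.s = true ∧ s.fc = false
  | .gg => fun s => s.s = false ∧ s.lc = false
  | .gg' => fun s => s.s = true

/-- the counted elements -/
def GgW : Ix' → Pr2 (Ps Q) 6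
  | .su => fun _ t a _ _ => t.s = false ∧ a 1
  | .su' => fun _ t _ b _ => t.s = false ∧ b 1
  | .ii => fun _ t a _ _ => t.s = true ∧ a 2
  | .ii' => fun _ t _ b _ => t.s = false ∧ b 2
  | .dd => fun _ t a _ _ => t.s = true ∧ a 3
  | .dd' => fun _ t _ b _ => t.s = false ∧ b 3
  | .ff => fun _ t a _ _ => t.s = true ∧ a 4
  | .ff' => fun _ t _ b _ => t.s = false ∧ b 4
  | .gg => fun _ t a _ _ => t.s = true ∧ a 5
  | .gg' => fun _ t _ b _ => t.s = false ∧ b 5

/-- the kinds of the counting conditions -/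
def mdW : Ix' → Md
  | .gg' => .am
  | _ => .one

theorem axW_iff (U : Bool → Bool → Bool → Bool → Q → Prop) (Hh Vv : Q → Q → Prop) {V : Type}
    (st : V → Ps Q) (R : ℕ → V → V → Prop) :
    ((∀ x y, (chiT U Hh Vv).ev st R x y) ∧
      ∀ i x, sgW i (st x) → (mdW i).Holds (fun y => (GgW (Q := Q) i).ev st R x y)) ↔
      PoAx U Hh Vv st (R 0) (R 1) (R 2) (R 3) (R 4) (R 5) := by
  constructor
  · rintro ⟨h1, h2⟩
    exact
      { irr := fun x => (h1 x x).1.1 rfl
        tot := fun x y => (h1 x y).2.1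
        fcm := fun x y => (h1 x y).1.2.1
        lcm := fun x y => (h1 x y).1.2.2.1
        mxx := fun x y => (h1 x y).1.2.2.2.1
        mnn := fun x y => (h1 x y).1.2.2.2.2.1
        su := fun x a b => h2 .su x ⟨a, b⟩
        su' := fun x a b => h2 .su' x ⟨a, b⟩
        sl := fun x y => (h1 x y).1.2.2.2.2.2.1
        ii := fun x a => h2 .ii x a
        ii' := fun x a => h2 .ii' x a
        il := fun x y => (h1 x y).2.2.1
        dd := fun x a b => h2 .dd x ⟨a, b⟩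
        dd' := fun x a b => h2 .dd' x ⟨a, b⟩
        dl := fun x y => (h1 x y).2.2.2
        ff := fun x a b => h2 .ff x ⟨a, b⟩
        ff' := fun x a b => h2 .ff' x ⟨a, b⟩
        fl := fun x y => (h1 x y).1.2.2.2.2.2.2.1
        gg := fun x a b => h2 .gg x ⟨a, b⟩
        gg' := fun y x x' a b c d e => h2 .gg' y a x x' ⟨b, d⟩ ⟨c, e⟩
        gl := fun x y => (h1 x y).1.2.2.2.2.2.2.2.1
        un := fun x => (h1 x x).1.2.2.2.2.2.2.2.2 }
  · intro h
    refine ⟨fun x y => ⟨⟨fun (e : x = y) => e ▸ h.irr x, h.fcm x y, h.lcm x y, h.mxx x y, h.mnn x y, h.sl x y, h.fl x y,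
      h.gl x y, h.un x⟩, h.tot x y, h.il x y, h.dl x y⟩, fun i x hi => ?_⟩
    cases i with
    | su => exact h.su x hi.1 hi.2
    | su' => exact h.su' x hi.1 hi.2
    | ii => exact h.ii x hi
    | ii' => exact h.ii' x hi
    | dd => exact h.dd x hi.1 hi.2
    | dd' => exact h.dd' x hi.1 hi.2
    | ff => exact h.ff x hi.1 hi.2
    | ff' => exact h.ff' x hi.1 hi.2
    | gg => exact h.gg x hi.1 hi.2
    | gg' => exact fun y y' hy hy' => h.gg' x y y' hi hy.1 hy'.1 hy.2 hy'.2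

end

theorem pf_df (hKDF : K_DF) : W_DF := by
  intro Q _ U Hh Vv
  obtain ⟨φ, hφ⟩ := hKDF (Ps Q) 6 (chiT U Hh Vv) Ix' sgW GgW mdW
  refine ⟨φ, fun V _ _ lt => ?_⟩
  constructor
  · rintro ⟨P, R, rfl, h⟩
    obtain ⟨st, hst⟩ := (hφ V R).1 ⟨P, h⟩
    exact ⟨st, R 1, R 2, R 3, R 4, R 5, (axW_iff U Hh Vv st R).1 hst⟩
  · rintro ⟨st, S, I, D, F, G, h⟩
    set R : ℕ → V → V → Prop := fun i => if i = 0 then lt else if i = 1 then S else
      if i = 2 then I else if i = 3 then D else if i = 4 then F else G with hR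
    obtain ⟨P, hP⟩ := (hφ V R).2 ⟨st, (axW_iff U Hh Vv st R).2 h⟩
    exact ⟨P, R, rfl, hP⟩

end Pool.Agent.H8.WP
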