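import Pool.Agent.H8.WP.Targets

/-!
# Row IG: from the numbered form to a tiling
-/

set_option autoImplicit false

namespace Pool.Agent.H8.WP

open Pool.Agent.H8.PL

theorem pf_ig : W_IG := by
  intro Q U Hh Vv M q a h
  have hq := h.pos
  have hM := h.le
  have hbt : ∀ i, i < M → ((a i).bt = true ↔ q ∣ i) := by
    intro i
    induction i using Nat.strong_induction_on with
    | _ i ih =>
      intro hi
      by_cases h1 : q ≤ i
      · have h2 := (h.sh (i - q) (by omega)).1
        rw [show i - q + q = i by omega] at h2
        rw [h2, ih (i - q) (by omega) (by omega)]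
        constructor
        · intro h3
          have := Nat.dvd_add h3 (dvd_refl q)
          rwa [show i - q + q = i by omega] at this
        · intro h3
          exact Nat.dvd_sub h3 (dvd_refl q)
      · rcases Nat.eq_zero_or_pos i with rfl | hpos
        · simp [h.bt]
        · have h2 := h.su (i - 1) (by omega)
          rw [show i - 1 + 1 = i by omega] at h2
          rw [h2.1, h2.2.1 (by omega)]
          constructor
          · intro h3
            exact absurd h3 (by simp)
          · intro h3
            exact absurd (Nat.le_of_dvd hpos h3) (by omega)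
  have htp : ∀ i, i + 1 < M → ((a i).tp = true ↔ q ∣ i + 1) := by
    intro i hi
    rw [← (h.su i hi).1]
    exact hbt (i + 1) hi
  have hdvd : q ∣ M := by
    rcases Nat.eq_or_lt_of_le hM with h1 | h1
    · rw [h1]
    · have h2 := (h.sh (M - 1 - q) (by omega)).2.1
      rw [show M - 1 - q + q = M - 1 by omega, h.tp] at h2
      have h3 := (htp (M - 1 - q) (by omega)).mp h2.symm
      rw [show M - 1 - q + 1 = M - q by omega] at h3
      have := Nat.dvd_add h3 (dvd_refl q)
      rwa [show M - q + q = M by omega] at this
  have htp' : ∀ i, i < M → ((a i).tp = true ↔ q ∣ i + 1) := by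
    intro i hi
    by_cases h1 : i + 1 < M
    · exact htp i h1
    · have h2 : i = M - 1 := by omega
      rw [h2, show M - 1 + 1 = M by omega]
      simp [h.tp, hdvd]
  obtain ⟨W, hW⟩ := hdvd
  have hWq : M = W * q := by rw [hW, mul_comm]
  have hWpos : 0 < W := by
    rcases Nat.eq_zero_or_pos W with h0 | h0
    · rw [h0, Nat.zero_mul] at hWq
      omega
    · exact h0
  have hlt : ∀ x y, x < W → y < q → x * q + y < M := by
    intro x y hx hy
    have h1 : (x + 1) * q ≤ W * q := Nat.mul_le_mul_right q hx
    rw [hWq]
    have h2 : (x + 1) * q = x * q + q := by ring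
    omega
  refine ⟨W, hWpos, hWq, fun x y => (a (x * q + y)).q, ?_, ?_, ?_⟩
  · intro x hx y hy
    have hi := hlt x y hx hy
    have hu := h.un _ hi
    have e1 : (a (x * q + y)).fc = decide (x = 0) := by
      rw [Bool.eq_iff_iff, h.fc _ hi, decide_eq_true_eq]
      constructor
      · intro h1
        by_contra h2
        have h3 : 1 * q ≤ x * q := Nat.mul_le_mul_right q (by omega)
        omega
      · rintro rfl
        omega
    have e2 : (a (x * q + y)).lc = decide (x + 1 = W) := by
      rw [Bool.eq_iff_iff, h.lc _ hi, decide_eq_true_eq]
      constructor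
      · intro h1
        by_contra h2
        have h3 : (x + 2) * q ≤ W * q := Nat.mul_le_mul_right q (by omega)
        have h4 : (x + 2) * q = x * q + q + q := by ring
        omega
      · intro h1
        have h3 : (x + 1) * q = x * q + q := by ring
        rw [hWq, ← h1]
        omega
    have e3 : (a (x * q + y)).bt = decide (y = 0) := by
      rw [Bool.eq_iff_iff, hbt _ hi, decide_eq_true_eq, Nat.dvd_add_right (Nat.dvd_mul_left q x)]
      constructor
      · intro h1
        by_contra h2
        exact absurd (Nat.le_of_dvd (by omega) h1) (by omega)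
      · rintro rfl
        exact dvd_zero q
    have e4 : (a (x * q + y)).tp = decide (y + 1 = q) := by
      rw [Bool.eq_iff_iff, htp' _ hi, decide_eq_true_eq, add_assoc,
        Nat.dvd_add_right (Nat.dvd_mul_left q x)]
      constructor
      · intro h1
        have := Nat.le_of_dvd (by omega) h1
        omega
      · rintro h1
        rw [h1]
    rw [e1, e2, e3, e4] at hu
    exact hu
  · intro x y hx hy
    have h1 := (h.sh (x * q + y) (by
      have := hlt (x + 1) y hx hy
      have h3 : (x + 1) * q = x * q + q := by ring
      omega)).2.2
    rw [show x * q + y + q = (x + 1) * q + y by ring] at h1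
    exact h1
  · intro x y hx hy
    have hi := hlt x y hx (by omega)
    have hi' := hlt x (y + 1) hx hy
    have h1 := (h.su (x * q + y) (by omega)).2.2
    have h2 : (a (x * q + y)).tp = false := by
      rw [← Bool.not_eq_true, htp' _ hi, add_assoc, Nat.dvd_add_right (Nat.dvd_mul_left q x)]
      intro h3
      exact absurd (Nat.le_of_dvd (by omega) h3) (by omega)
    exact h1 h2

end Pool.Agent.H8.WP
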