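import Pool.Agent.H8.WP.Targets

/-!
# Row PH: the pigeonhole principle for two staircases
-/

set_option autoImplicit false

namespace Pool.Agent.H8.WP

theorem pf_ph : W_PH := by
  intro p q F G u hq hF hG hu hm hFi hGi
  have inj : ∀ (f : ℕ → ℕ) (a b c d : ℕ), (∀ k, a ≤ k → k < b → c ≤ f k ∧ f k < d) →
      (∀ k k', a ≤ k → k < b → a ≤ k' → k' < b → f k = f k' → k = k') → b - a ≤ d - c := by
    intro f a b c d h1 h2
    have := Finset.card_le_card_of_injOn (s := Finset.Ico a b) (t := Finset.Ico c d) f
      (fun k hk => by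
        have hk' := Finset.mem_Ico.mp hk
        exact Finset.mem_Ico.mpr (h1 k hk'.1 hk'.2))
      (fun k hk k' hk' h => by
        have g := Finset.mem_Ico.mp hk
        have g' := Finset.mem_Ico.mp hk'
        exact h2 k k' g.1 g.2 g'.1 g'.2 h)
    simpa using this
  have hA : ∀ i < p, q + i ≤ u i := by
    intro i hi
    have h1 := inj G 0 (i + 1) (q - 1) (u i)
      (fun k _ hk => ⟨by have := hG k (by omega); omega,
        lt_of_lt_of_le (hu k (by omega)).1 (hm k i (by omega) hi)⟩)
      (fun k k' _ hk _ hk' h => hGi k (by omega) k' (by omega) h)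
    omega
  have hB : ∀ i < p, F i = q + i := by
    intro i hi
    by_contra hne
    have hge : ∀ k < p, q + k ≤ F k := fun k hk => (hA k hk).trans (hu k hk).2
    have h0 := hge i hi
    have h1 := inj F i p (q + i + 1) (q + p)
      (fun k hk hk' => by
        have a1 := hge k hk'
        have a2 := (hF k hk').2
        rcases Nat.eq_or_lt_of_le hk with rfl | hlt
        · omega
        · omega)
      (fun k k' _ hk _ hk' h => hFi k hk k' hk' h)
    omega
  intro i hi
  refine ⟨hB i hi, ?_⟩
  by_contra hne
  have hle : ∀ k < p, G k + 1 ≤ q + k := by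
    intro k hk
    have a1 := (hu k hk).1
    have a2 := (hu k hk).2
    rw [hB k hk] at a2
    omega
  have h0 := hle i hi
  have h1 := inj G 0 (i + 1) (q - 1) (q + i - 1)
    (fun k _ hk => by
      have a1 := hle k (by omega)
      have a2 := hG k (by omega)
      rcases Nat.eq_or_lt_of_le (Nat.le_of_lt_succ hk) with rfl | hlt
      · omega
      · omega)
    (fun k k' _ hk _ hk' h => hGi k (by omega) k' (by omega) h)
  omega

end Pool.Agent.H8.WP
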