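import Pool.Agent.H8.WP.Fin
import Pool.Agent.H8.JS.All
import Pool.Agent.H88.DI.DF
import Pool.Agent.H8.WP.PH
import Pool.Agent.H32.WP.RK
import Pool.Agent.H32.WP.SU
import Pool.Agent.H18.WP.AL
import Pool.Agent.H8.WP.AI
import Pool.Agent.H8.WP.IG
import Pool.Agent.H8.WP.DF
import Pool.Agent.H60.WP.AF
import Pool.Agent.H56.WP.IX
import Pool.Agent.H54.WP.ST
import Pool.Agent.H63.WP.MW
import Pool.Agent.H63.WP.XS
import Pool.Agent.H35.WP.MO
import Pool.Agent.H69.WP.TR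
import Pool.Agent.H69.WP.XC
import Pool.Agent.H86.WP.SP

/-!
# One transitive relation: everything
-/

set_option autoImplicit false

namespace Pool.Agent.H8.WP

open Pool.Agent.H69.Sp Pool.Agent.H69.Mt Pool.Agent.H16.TO Pool.Agent.H8.PL Pool.Agent.H8.DI
open Pool.Agent.H8.JS

theorem w_al : W_AL := H18.WP.pf_al pf_ph
theorem w_su : W_SU := H32.WP.pf_su
theorem w_ai : W_AI := pf_ai w_al w_su
theorem w_af : W_AF := H60.WP.pf_af w_al w_su w_ai
theorem w_ix : W_IX := H56.WP.pf_ix H32.WP.pf_rk w_su w_ai w_af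
theorem w_st : W_ST := H54.WP.pf_st w_ix pf_ig
theorem w_df : W_DF := pf_df H88.DI.pf_df
theorem w_xc : W_XC := H69.WP.pf_xc w_st H63.WP.pf_mw H35.WP.pf_mo H69.WP.pf_tr w_df
theorem w_xs : W_XS := H63.WP.pf_xs z_sq w_xc

theorem v_6 : ∃ φ : C2, ∀ C, Btw C →
    NEComplete (specC C φ) ∧ (lang (specC C φ) ∈ coNE ↔ NE = coNE) := by
  obtain ⟨φ, h⟩ := complete_specC w_xs H86.WP.pf_sp
  exact ⟨φ, fun C hC => ne_of _ (h C hC)⟩

end Pool.Agent.H8.WP
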