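import Pool.Agent.H16.TO.Defs2

/-!
# Two-variable logic with counting and one transitive relation
-/

set_option autoImplicit false

namespace Pool.Agent.H8.WP

open Pool.Agent.H16.TO

/-- `r` is a strict partial order of width at most two: among any three elements, two are equal or
comparable. -/
def Wid2 {A : Type} (r : A → A → Prop) : Prop :=
  (∀ a, ¬ r a a) ∧ (∀ a b c, r a b → r b c → r a c) ∧
    ∀ a b c, a = b ∨ b = c ∨ a = c ∨ r a b ∨ r b a ∨ r b c ∨ r c b ∨ r a c ∨ r c a

/-- The sizes of the finite (nonempty) models of `φ` in which the binary relation `R 0` is in the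
class `C`. -/
def specC (C : (n : ℕ) → (Fin n → Fin n → Prop) → Prop) (φ : C2) : Set ℕ :=
  {n | 0 < n ∧ ∃ (P : ℕ → Fin n → Prop) (R : ℕ → Fin n → Fin n → Prop),
    C n (R 0) ∧ ∀ s : Bool → Fin n, φ.Sat P R s}

/-- The class `C` contains the strict partial orders of width at most two, and all its members are
transitive. -/
def Btw (C : (n : ℕ) → (Fin n → Fin n → Prop) → Prop) : Prop :=
  (∀ n r, Wid2 r → C n r) ∧ ∀ n r, C n r → ∀ a b c, r a b → r b c → r a c

end Pool.Agent.H8.WP
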