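import Pool.Agent.H8.WP.Targets
import Pool.Agent.H51.UN.Complete

/-!
# One transitive relation: completeness
-/

set_option autoImplicit false

namespace Pool.Agent.H8.WP

open Pool.Agent.H69.Sp Pool.Agent.H69.Mt Pool.Agent.H16.TO Pool.Agent.H8.PL Pool.Agent.H8.DI
open Pool.Agent.H8.PU Pool.Agent.H8.UN

theorem btw_po : Btw po :=
  ⟨fun _ _ h => ⟨h.1, h.2.1⟩, fun _ _ h => h.2⟩

/-- one formula is complete for all classes -/
theorem complete_specC (hXS : W_XS) (hSP : W_SP) :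
    ∃ φ : C2, ∀ C, Btw C → H51.UN.Complete (specC C φ) := by
  obtain ⟨φ, r, hr, h⟩ := hXS X0 pf_xs
  refine ⟨φ, fun C hC => ?_⟩
  have e : specC C φ = specC po φ := Set.ext fun k => (h C hC k).trans (h po btw_po k).symm
  refine H51.UN.complete_of n_ur n_re _ (fun n => 2 * n ^ (2 * r))
    (2 * Polynomial.X ^ (2 * r)) (e ▸ hSP φ) (fun n _ => by simp) (fun n _ => ?_)
    (fun X hX => ge4 Pool.Agent.H19.UN.pf_f4 _ X
        (Pool.Agent.H84.TW.pf_pb X hX 2 (2 * r) (by omega) (by omega))) (fun n _ => ?_)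
  · calc n ≤ n ^ (2 * r) := Nat.le_self_pow (by omega) n
      _ ≤ 2 * n ^ (2 * r) := by omega
  · rw [h C hC]
    constructor
    · intro hn
      exact ⟨n, hn, rfl⟩
    · rintro ⟨m, hm, hk⟩
      have h1 : n ^ (2 * r) = m ^ (2 * r) := by omega
      rw [Nat.pow_left_injective (show (2 * r) ≠ 0 by omega) h1]
      exact hm

end Pool.Agent.H8.WP
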