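import Pool.Agent.H8.WP.Defs
import Pool.Agent.H8.DI.Targets

/-!
# One transitive relation: targets

The cells of a rectangle with `W` columns of `H` cells are numbered column by column: `i = x H + y`.
Every cell has two copies, on the sides `false` and `true`; each side is a chain. The order between the
sides codes the equality (`(true, j) < (false, i)` iff `j ≤ i`) and the shift by one column
(`(false, i) < (true, j)` iff `i + H ≤ j`).
-/

set_option autoImplicit false

namespace Pool.Agent.H8.WP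

open Pool.Agent.H69.Sp Pool.Agent.H69.Mt Pool.Agent.H16.TO Pool.Agent.H8.PL Pool.Agent.H8.DI

/-- the state of an element: side, first column, last column, bottom, top, tile -/
structure Ps (Q : Type) : Type where
  s : Bool
  fc : Bool
  lc : Bool
  bt : Bool
  tp : Bool
  q : Q

instance {Q : Type} [Finite Q] : Finite (Ps Q) := by
  refine Finite.of_injective (β := Bool × Bool × Bool × Bool × Bool × Q)
    (fun s => (s.s, s.fc, s.lc, s.bt, s.tp, s.q)) ?_
  rintro ⟨_, _, _, _, _, _⟩ ⟨_, _, _, _, _, _⟩ h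
  simpa using h

section
variable {V Q : Type}

/-- the last cell -/
def mx (s : Ps Q) : Prop := s.lc = true ∧ s.tp = true

/-- the first cell -/
def mn (s : Ps Q) : Prop := s.fc = true ∧ s.bt = true

/-- the axioms: `S` is the successor relation on the side `false`, `I` joins the two copies of a cell,
`F` joins a cell (side `false`) with its right neighbour (side `true`), `D` and `G` are auxiliary -/
structure PoAx (U : Bool → Bool → Bool → Bool → Q → Prop) (Hh Vv : Q → Q → Prop) (st : V → Ps Q)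
    (lt S I D F G : V → V → Prop) : Prop where
  irr : ∀ x, ¬ lt x x
  tot : ∀ x y, (st x).s = (st y).s → x = y ∨ lt x y ∨ lt y x
  fcm : ∀ x y, (st x).s = (st y).s → lt x y → (st y).fc = true → (st x).fc = true
  lcm : ∀ x y, (st x).s = (st y).s → lt x y → (st x).lc = true → (st y).lc = true
  mxx : ∀ x y, (st x).s = (st y).s → mx (st x) → ¬ lt x y
  mnn : ∀ x y, (st x).s = (st y).s → mn (st y) → ¬ lt x y
  su : ∀ x, (st x).s = false → ¬ mx (st x) → ∃! y, (st y).s = false ∧ S x y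
  su' : ∀ y, (st y).s = false → ¬ mn (st y) → ∃! x, (st x).s = false ∧ S x y
  sl : ∀ x y, (st x).s = false → (st y).s = false → S x y → lt x y ∧ (st y).bt = (st x).tp ∧
    ((st x).fc = true → (st x).tp = !(st y).fc) ∧ ((st x).tp = false → Vv (st x).q (st y).q)
  ii : ∀ x, (st x).s = false → ∃! y, (st y).s = true ∧ I x y
  ii' : ∀ y, (st y).s = true → ∃! x, (st x).s = false ∧ I x y
  il : ∀ x y, (st x).s = false → (st y).s = true → I x y → lt y x ∧ (st x).fc = (st y).fc ∧
    (st x).lc = (st y).lc ∧ (st x).bt = (st y).bt ∧ (st x).tp = (st y).tp ∧ (st x).q = (st y).q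
  dd : ∀ x, (st x).s = false → ¬ mx (st x) → ∃! y, (st y).s = true ∧ D x y
  dd' : ∀ y, (st y).s = true → ¬ mn (st y) → ∃! x, (st x).s = false ∧ D x y
  dl : ∀ x y, (st x).s = false → (st y).s = true → D x y → ¬ lt y x ∧ ¬ mx (st x) ∧ ¬ mn (st y)
  ff : ∀ x, (st x).s = false → (st x).lc = false → ∃! y, (st y).s = true ∧ F x y
  ff' : ∀ y, (st y).s = true → (st y).fc = false → ∃! x, (st x).s = false ∧ F x y
  fl : ∀ x y, (st x).s = false → (st y).s = true → F x y → lt x y ∧ (st x).lc = false ∧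
    (st y).fc = false ∧ (st x).bt = (st y).bt ∧ (st x).tp = (st y).tp ∧ Hh (st x).q (st y).q
  gg : ∀ x, (st x).s = false → (st x).lc = false → ∃! y, (st y).s = true ∧ G x y
  gg' : ∀ y x x', (st y).s = true → (st x).s = false → (st x').s = false → G x y → G x' y → x = x'
  gl : ∀ x y, (st x).s = false → (st y).s = true → G x y → ¬ lt x y ∧
    ((st y).fc = true → (st y).tp = true)
  un : ∀ x, U (st x).fc (st x).lc (st x).bt (st x).tp (st x).q

/-- `rk x` is the number of `x` on its side, the side `b` has `M b` elements -/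
structure Rk (s : V → Bool) (lt : V → V → Prop) (rk : V → ℕ) (M : Bool → ℕ) : Prop where
  ltM : ∀ x, rk x < M (s x)
  sur : ∀ b i, i < M b → ∃ x, s x = b ∧ rk x = i
  lti : ∀ x y, s x = s y → (lt x y ↔ rk x < rk y)
  inj : ∀ x y, s x = s y → rk x = rk y → x = y
  dn : ∀ x, ∃ l, ∀ y, s y ≠ s x → (lt y x ↔ rk y < l)
  up : ∀ x, ∃ u, ∀ y, s y ≠ s x → (lt x y ↔ u ≤ rk y)
  card : Nat.card V = M true + M false

end

/-- the numbered form: `M` cells, columns of length `q` -/
structure Ix {Q : Type} (U : Bool → Bool → Bool → Bool → Q → Prop) (Hh Vv : Q → Q → Prop) (M q : ℕ)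
    (a : ℕ → Ps Q) : Prop where
  pos : 0 < q
  le : q ≤ M
  un : ∀ i < M, U (a i).fc (a i).lc (a i).bt (a i).tp (a i).q
  fc : ∀ i < M, ((a i).fc = true ↔ i < q)
  lc : ∀ i < M, ((a i).lc = true ↔ M ≤ i + q)
  bt : (a 0).bt = true
  tp : (a (M - 1)).tp = true
  su : ∀ i, i + 1 < M → (a (i + 1)).bt = (a i).tp ∧ (i + 1 < q → (a i).tp = false) ∧
    ((a i).tp = false → Vv (a i).q (a (i + 1)).q)
  sh : ∀ i, i + q < M → (a (i + q)).bt = (a i).bt ∧ (a (i + q)).tp = (a i).tp ∧
    Hh (a i).q (a (i + q)).q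

/-! ### from the axioms to tilings -/

/-- the pigeonhole principle for two staircases -/
def W_PH : Prop := ∀ (p q : ℕ) (F G u : ℕ → ℕ), 0 < q → (∀ i < p, q ≤ F i ∧ F i < q + p) →
  (∀ i < p, q ≤ G i + 1) → (∀ i < p, G i < u i ∧ u i ≤ F i) →
  (∀ i j, i ≤ j → j < p → u i ≤ u j) → (∀ i < p, ∀ j < p, F i = F j → i = j) →
  (∀ i < p, ∀ j < p, G i = G j → i = j) → ∀ i < p, F i = q + i ∧ G i + 1 = q + i

/-- ranks -/
def W_RK : Prop := ∀ (V : Type) [Finite V] (s : V → Bool) (lt : V → V → Prop), (∀ x, ¬ lt x x) →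
  (∀ a b c, lt a b → lt b c → lt a c) → (∀ x y, s x = s y → x = y ∨ lt x y ∨ lt y x) →
    ∃ (rk : V → ℕ) (M : Bool → ℕ), Rk s lt rk M

/-- alignment of the two sides -/
def W_AL : Prop := ∀ (V : Type) [Finite V] (s : V → Bool) (lt : V → V → Prop) (rk : V → ℕ)
  (M : Bool → ℕ) (Λ F G : V → V → Prop) (p q : ℕ), Rk s lt rk M → 0 < q → p ≤ M false →
    (∀ x, s x = false → ∃ u, ∀ y, s y = true → (Λ x y ↔ rk y < u)) →
    (∀ x x' y, s x = false → s x' = false → s y = true → rk x ≤ rk x' → Λ x y → Λ x' y) →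
    (∀ x, s x = false → rk x < p → (∃! y, s y = true ∧ F x y) ∧ ∃! y, s y = true ∧ G x y) →
    (∀ x y, s x = false → s y = true → rk x < p → F x y → ¬ Λ x y ∧ q ≤ rk y ∧ rk y < q + p) →
    (∀ x y, s x = false → s y = true → rk x < p → G x y → Λ x y ∧ q ≤ rk y + 1) →
    (∀ x x' y, s x = false → s x' = false → s y = true → rk x < p → rk x' < p → F x y → F x' y →
      x = x') →
    (∀ x x' y, s x = false → s x' = false → s y = true → rk x < p → rk x' < p → G x y → G x' y →
      x = x') →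
    ∀ x y, s x = false → s y = true → rk x < p →
      (F x y → rk y = rk x + q) ∧ (G x y → rk y + 1 = rk x + q)

/-- the successor relation -/
def W_SU : Prop := ∀ (V Q : Type) [Finite V] [Nonempty V] (U : Bool → Bool → Bool → Bool → Q → Prop)
  (Hh Vv : Q → Q → Prop) (st : V → Ps Q) (lt S I D F G : V → V → Prop) (rk : V → ℕ)
  (M : Bool → ℕ), PoAx U Hh Vv st lt S I D F G → Rk (fun x => (st x).s) lt rk M →
    0 < M false ∧ (∀ x, (st x).s = false → (mx (st x) ↔ rk x + 1 = M false) ∧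
      (mn (st x) ↔ rk x = 0)) ∧
    ∀ x y, (st x).s = false → (st y).s = false → (S x y ↔ rk y = rk x + 1)

/-- equality -/
def W_AI : Prop := ∀ (V Q : Type) [Finite V] [Nonempty V] (U : Bool → Bool → Bool → Bool → Q → Prop)
  (Hh Vv : Q → Q → Prop) (st : V → Ps Q) (lt S I D F G : V → V → Prop) (rk : V → ℕ)
  (M : Bool → ℕ), PoAx U Hh Vv st lt S I D F G → (∀ a b c, lt a b → lt b c → lt a c) →
    Rk (fun x => (st x).s) lt rk M → M true = M false ∧
      ∀ x y, (st x).s = false → (st y).s = true → (I x y ↔ rk y = rk x)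

/-- the shift -/
def W_AF : Prop := ∀ (V Q : Type) [Finite V] [Nonempty V] (U : Bool → Bool → Bool → Bool → Q → Prop)
  (Hh Vv : Q → Q → Prop) (st : V → Ps Q) (lt S I D F G : V → V → Prop) (rk : V → ℕ)
  (M : Bool → ℕ), PoAx U Hh Vv st lt S I D F G → (∀ a b c, lt a b → lt b c → lt a c) →
    Rk (fun x => (st x).s) lt rk M → ∃ q, 0 < q ∧ q ≤ M false ∧
      (∀ x, (st x).s = false → ((st x).fc = true ↔ rk x < q) ∧
        ((st x).lc = true ↔ M false ≤ rk x + q)) ∧
      ∀ x y, (st x).s = false → (st y).s = true → (F x y ↔ rk y = rk x + q)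

/-- the numbered form -/
def W_IX : Prop := ∀ (V Q : Type) [Finite V] [Nonempty V] (U : Bool → Bool → Bool → Bool → Q → Prop)
  (Hh Vv : Q → Q → Prop) (st : V → Ps Q) (lt S I D F G : V → V → Prop),
    PoAx U Hh Vv st lt S I D F G → (∀ a b c, lt a b → lt b c → lt a c) →
      ∃ (M q : ℕ) (a : ℕ → Ps Q), Ix U Hh Vv M q a ∧ Nat.card V = 2 * M

/-- from the numbered form to a tiling -/
def W_IG : Prop := ∀ (Q : Type) (U : Bool → Bool → Bool → Bool → Q → Prop) (Hh Vv : Q → Q → Prop)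
  (M q : ℕ) (a : ℕ → Ps Q), Ix U Hh Vv M q a →
    ∃ W, 0 < W ∧ M = W * q ∧ ∃ t, GridF U Hh Vv W q t

/-- from the axioms to a tiling -/
def W_ST : Prop := ∀ (V Q : Type) [Finite V] [Nonempty V] (U : Bool → Bool → Bool → Bool → Q → Prop)
  (Hh Vv : Q → Q → Prop) (st : V → Ps Q) (lt S I D F G : V → V → Prop),
    PoAx U Hh Vv st lt S I D F G → (∀ a b c, lt a b → lt b c → lt a c) →
      ∃ W H, 0 < W ∧ 0 < H ∧ (∃ t, GridF U Hh Vv W H t) ∧ Nat.card V = 2 * (W * H)

/-! ### the model -/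

/-- the order of the model -/
def ltM (n H : ℕ) (x y : Bool × Fin n) : Prop :=
  (x.1 = y.1 ∧ x.2.1 < y.2.1) ∨ (x.1 = true ∧ y.1 = false ∧ x.2.1 ≤ y.2.1) ∨
    (x.1 = false ∧ y.1 = true ∧ x.2.1 + H ≤ y.2.1)

/-- the states of the model -/
def stW {Q : Type} (n H : ℕ) (t : ℕ → ℕ → Q) (x : Bool × Fin n) : Ps Q where
  s := x.1
  fc := decide (x.2.1 < H)
  lc := decide (n ≤ x.2.1 + H)
  bt := decide (H ∣ x.2.1)
  tp := decide (H ∣ x.2.1 + 1)
  q := t (x.2.1 / H) (x.2.1 % H)

/-- the order of the model has width two -/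
def W_MW : Prop := ∀ n H : ℕ, 0 < H → Wid2 (ltM n H)

/-- the model satisfies the axioms -/
def W_MO : Prop := ∀ (Q : Type) (U : Bool → Bool → Bool → Bool → Q → Prop) (Hh Vv : Q → Q → Prop)
  (W H : ℕ) (t : ℕ → ℕ → Q), 0 < W → 0 < H → GridF U Hh Vv W H t →
    PoAx U Hh Vv (stW (W * H) H t) (ltM (W * H) H)
      (fun x y => y.2.1 = x.2.1 + 1) (fun x y => y.2.1 = x.2.1) (fun x y => y.2.1 = x.2.1 + 1)
      (fun x y => y.2.1 = x.2.1 + H)
      (fun x y => y.2.1 + 1 = x.2.1 + H)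

/-- transport -/
def W_TR : Prop := ∀ (V V' Q : Type) (U : Bool → Bool → Bool → Bool → Q → Prop) (Hh Vv : Q → Q → Prop)
  (e : V' ≃ V) (st : V → Ps Q) (lt S I D F G : V → V → Prop),
    (PoAx U Hh Vv st lt S I D F G → PoAx U Hh Vv (fun x => st (e x)) (fun x y => lt (e x) (e y))
      (fun x y => S (e x) (e y)) (fun x y => I (e x) (e y)) (fun x y => D (e x) (e y))
      (fun x y => F (e x) (e y)) (fun x y => G (e x) (e y))) ∧
    (Wid2 lt → Wid2 (fun x y : V' => lt (e x) (e y)))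

/-! ### the theorems -/

/-- the axioms are definable -/
def W_DF : Prop := ∀ (Q : Type) [Finite Q] (U : Bool → Bool → Bool → Bool → Q → Prop)
  (Hh Vv : Q → Q → Prop), ∃ φ : C2, ∀ (V : Type) [Finite V] [Nonempty V] (lt : V → V → Prop),
    ((∃ (P : ℕ → V → Prop) (R : ℕ → V → V → Prop), R 0 = lt ∧ ∀ s, φ.Sat P R s) ↔
      ∃ (st : V → Ps Q) (S I D F G : V → V → Prop), PoAx U Hh Vv st lt S I D F G)

/-- the spectrum of the formula, for all classes -/
def W_XC : Prop := ∀ (Q : Type) [Finite Q] (U : Bool → Bool → Bool → Bool → Q → Prop)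
  (Hh Vv : Q → Q → Prop), ∃ φ : C2, ∀ C, Btw C → ∀ k, (k ∈ specC C φ ↔
    ∃ W H, 0 < W ∧ 0 < H ∧ (∃ t, GridF U Hh Vv W H t) ∧ k = 2 * (W * H))

/-- the class of the strict partial orders -/
def po (n : ℕ) (r : Fin n → Fin n → Prop) : Prop :=
  (∀ a, ¬ r a a) ∧ ∀ a b c, r a b → r b c → r a c

/-- the spectra for partial orders are spectra -/
def W_SP : Prop := ∀ φ : C2, IsSpectrum (specC po φ)

/-- all spectra are reduced to spectra with one partial order of width two -/
def W_XS : Prop := ∀ S, IsSpectrum S → ∃ (φ : C2) (r : ℕ), 0 < r ∧ ∀ C, Btw C → ∀ k,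
  (k ∈ specC C φ ↔ ∃ m ∈ S, k = 2 * m ^ (2 * r))

end Pool.Agent.H8.WP
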